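import Pool.Agent.Y924.SI.Disc

set_option autoImplicit false

/-!
# The final statements
-/

namespace Pool.Agent.Y924.SI

open Polynomial Finset
open scoped ComplexConjugate
open Pool.Agent.Helper140.SelfInv.A

variable {P : ℂ[X]} {ε : ℂ}

lemma exists_max (P : ℂ[X]) :
    ∃ z₁ : ℂ, ‖z₁‖ = 1 ∧ ∀ z : ℂ, ‖z‖ ≤ 1 → ‖P.eval z‖ ≤ ‖P.eval z₁‖ := by
  obtain ⟨z₁, hz₁, hmax⟩ := (isCompact_sphere (0 : ℂ) 1).exists_isMaxOn
    (NormedSpace.sphere_nonempty.2 zero_le_one)
    (f := fun z => ‖P.eval z‖) (P.continuous.norm.continuousOn)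
  refine ⟨z₁, by simpa using hz₁, ?_⟩
  intro z hz
  apply norm_le_of_circle P _ _ z hz
  intro y hy
  exact hmax (by simpa using hy)

/-- a disc of radius `M / 2` for both reflections -/
lemma half_disc (hn : 1 ≤ P.natDegree)
    (hP : SelfInversive P ∨ SelfInversiveConj P) {z : ℂ} (hz : ‖z‖ = 1) :
    ∃ w₀ : ℂ, Metric.ball w₀ (‖P.eval z‖ / 2) ⊆ Img P := by
  rcases hP with hP | hP
  · obtain ⟨ε, hε, hsym⟩ := symm_inv P hn hP
    obtain ⟨y, hy, h⟩ := half_inv hn (norm_one_of hε) hsym hz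
    exact ⟨_, (Metric.ball_subset_ball h).trans (lag_disc P hn y hy)⟩
  · obtain ⟨ε, hε, hsym⟩ := symm_conj P hn hP
    have h := half_conj hn (norm_one_of hε) hsym hz
    exact ⟨_, (Metric.ball_subset_ball h).trans (lag_disc P hn z hz)⟩

lemma coeff_zero_le (hn : 0 < P.natDegree) (hε : ‖ε‖ = 1)
    (hsym : ∀ j, j ≤ P.natDegree → P.coeff (P.natDegree - j) = ε * conj (P.coeff j))
    {M : ℝ} (hM : ∀ z : ℂ, ‖z‖ ≤ 1 → ‖P.eval z‖ ≤ M) : ‖P.coeff 0‖ ≤ M / 2 := by
  by_cases h0 : P.coeff 0 = 0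
  · rw [h0, norm_zero]
    have := (norm_nonneg _).trans (hM 0 (by simp))
    linarith
  have hpos : 0 < ‖P.coeff 0‖ := norm_pos_iff.2 h0
  have key : ∀ t : ℝ, 0 < t → t < 2 → t * ‖P.coeff 0‖ ≤ M := by
    intro t ht0 ht2
    have htc : (t : ℂ) ≠ 0 := by exact_mod_cast ht0.ne'
    have hw0 : (t : ℂ) * P.coeff 0 ≠ 0 := mul_ne_zero htc h0
    have hmem : (t : ℂ) * P.coeff 0 ∈ Img P := by
      rw [criterion hn hε hsym hw0]
      refine ⟨fun j => if j = 0 then 1 else 0, ?_⟩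
      have e1 : ∑ j ∈ range P.natDegree, ‖(if j = 0 then (1 : ℂ) else 0)‖ ^ 2 = 1 := by
        rw [Finset.sum_eq_single 0]
        · simp
        · intro b _ hb; simp [hb]
        · intro h; exact absurd (Finset.mem_range.2 hn) h
      have e2 : form P (fun j => if j = 0 then 1 else 0) = P.coeff 0 := by
        unfold form
        rw [Finset.sum_eq_single 0]
        · simp
        · intro b _ hb; simp [hb]
        · intro h; exact absurd (Finset.mem_range.2 hn) h
      rw [e1, e2, mul_one, norm_mul, map_mul, Complex.conj_ofReal, mul_assoc, Complex.re_ofReal_mul,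
        Complex.conj_mul', ← Complex.ofReal_pow, Complex.ofReal_re, Complex.norm_real,
        Real.norm_eq_abs, abs_of_pos ht0]
      have : 0 < ‖P.coeff 0‖ ^ 2 := by positivity
      nlinarith [mul_pos ht0 this]
    obtain ⟨z, hz, hzw⟩ := hmem
    have h2 := hM z (by have : ‖z‖ < 1 := by simpa using hz
                        exact this.le)
    have h3 : P.eval z = (t : ℂ) * P.coeff 0 := hzw
    rw [h3, norm_mul, Complex.norm_real, Real.norm_eq_abs, abs_of_pos ht0] at h2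
    exact h2
  by_contra hcon
  rw [not_le] at hcon
  obtain ⟨t, ht1, ht2⟩ := exists_between (show M / ‖P.coeff 0‖ < 2 by
    rw [div_lt_iff₀ hpos]; linarith)
  have hM0 : 0 ≤ M := (norm_nonneg _).trans (hM 0 (by simp))
  have ht0 : 0 < t := lt_of_le_of_lt (div_nonneg hM0 hpos.le) ht1
  have := key t ht0 ht2
  rw [div_lt_iff₀ hpos] at ht1
  linarith

lemma zero_mem (hn : 1 ≤ P.natDegree) (hP : SelfInversiveConj P)
    (hz : ∃ ζ : ℂ, P.eval ζ = 0 ∧ ‖ζ‖ ≠ 1) : (0 : ℂ) ∈ Img P := by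
  obtain ⟨ζ, hζ, hne⟩ := hz
  have hP0 : P ≠ 0 := by rintro rfl; simp at hn
  rcases lt_or_gt_of_ne hne with h | h
  · exact ⟨ζ, by simpa using h, hζ⟩
  · obtain ⟨h0, h1⟩ := hP ζ hζ
    have h2 : 0 < P.rootMultiplicity ζ := (rootMultiplicity_pos hP0).2 hζ
    rw [← h1] at h2
    have h3 := (rootMultiplicity_pos hP0).1 h2
    refine ⟨1 / conj ζ, ?_, h3⟩
    rw [mem_ball_zero_iff, norm_div, norm_one, RCLike.norm_conj]
    rw [div_lt_one (by linarith)]
    exact h

/-- the largest modulus of a coefficient is at most the maximum of the two radii -/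
lemma sup_le_max (hn : 1 ≤ P.natDegree) (hP : SelfInversiveConj P) {M : ℝ}
    (hM : ∀ z : ℂ, ‖z‖ ≤ 1 → ‖P.eval z‖ ≤ M) :
    (range (P.natDegree + 1)).sup' nonempty_range_add_one (fun k => ‖P.coeff k‖) ≤
      max (M / 2) (Real.sqrt (∑ k ∈ Ico 1 P.natDegree, ‖P.coeff k‖ ^ 2)) := by
  obtain ⟨ε, hε, hsym⟩ := symm_conj P hn hP
  have hε1 := norm_one_of hε
  have h0 := coeff_zero_le hn hε1 hsym hM
  apply Finset.sup'_le
  intro k hk
  have hk' := Finset.mem_range.1 hk
  rcases Nat.eq_zero_or_pos k with rfl | hk0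
  · exact le_max_of_le_left h0
  rcases Nat.lt_or_ge k P.natDegree with hk1 | hk1
  · apply le_max_of_le_right
    apply Real.le_sqrt_of_sq_le
    exact Finset.single_le_sum (f := fun k => ‖P.coeff k‖ ^ 2) (fun i _ => by positivity)
      (Finset.mem_Ico.2 ⟨hk0, hk1⟩)
  · have e : k = P.natDegree := by omega
    rw [e]
    have h1 := hsym 0 (Nat.zero_le _)
    rw [Nat.sub_zero] at h1
    rw [h1, norm_mul, hε1, one_mul, RCLike.norm_conj]
    exact le_max_of_le_left h0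

end Pool.Agent.Y924.SI
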