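import Pool.Agent.Y924.SI.Main

set_option autoImplicit false

/-!
# A disc of radius the `ℓ²` norm of the inner coefficients, and the criterion
-/

namespace Pool.Agent.Y924.SI

open Polynomial Finset
open scoped ComplexConjugate
open Pool.Agent.Helper140.SelfInv.A

variable {P : ℂ[X]} {ε : ℂ}

/-- the quadratic form of the Toeplitz matrix of `P` -/
noncomputable def form (P : ℂ[X]) (x : ℕ → ℂ) : ℂ :=
  ∑ j ∈ range P.natDegree, (∑ i ∈ range (j + 1), P.coeff (j - i) * x i) * conj (x j)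

lemma coeff_poly (x : ℕ → ℂ) (n j : ℕ) (hj : j < n) :
    (∑ i ∈ range n, C (x i) * X ^ i : ℂ[X]).coeff j = x j := by
  rw [finsetSum_coeff]
  simp only [coeff_C_mul_X_pow]
  rw [Finset.sum_ite_eq, if_pos (Finset.mem_range.2 hj)]

lemma coeff_mul_poly (x : ℕ → ℂ) (n j : ℕ) (hj : j < n) :
    (P * ∑ i ∈ range n, C (x i) * X ^ i : ℂ[X]).coeff j =
      ∑ i ∈ range (j + 1), P.coeff (j - i) * x i := by
  rw [mul_comm, coeff_mul, Finset.Nat.sum_antidiagonal_eq_sum_range_succ
    (fun a b => (∑ i ∈ range n, C (x i) * X ^ i : ℂ[X]).coeff a * P.coeff b)]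
  refine Finset.sum_congr rfl fun i hi => ?_
  have := Finset.mem_range.1 hi
  rw [coeff_poly x n i (by omega), mul_comm]

lemma geom_form (z : ℂ) (hz : ‖z‖ = 1) (g : ℕ → ℂ) (n : ℕ) :
    ∑ j ∈ range n, (∑ i ∈ range (j + 1), g (j - i) * conj z ^ i) * z ^ j =
      ∑ k ∈ range n, ((n : ℂ) - k) * g k * z ^ k := by
  have hzz : conj z * z = 1 := by rw [Complex.conj_mul', hz]; simp
  induction n with
  | zero => simp
  | succ n ih =>
    rw [Finset.sum_range_succ, ih]
    have e1 : (∑ i ∈ range (n + 1), g (n - i) * conj z ^ i) * z ^ n =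
        ∑ k ∈ range (n + 1), g k * z ^ k := by
      rw [← Finset.sum_range_reflect (fun k => g k * z ^ k), Finset.sum_mul]
      refine Finset.sum_congr rfl fun i hi => ?_
      have hi' := Finset.mem_range.1 hi
      have e2 : n + 1 - 1 - i = n - i := by omega
      have e3 : z ^ n = z ^ i * z ^ (n - i) := by rw [← pow_add]; congr 1; omega
      rw [e2, e3, mul_assoc, ← mul_assoc (conj z ^ i), ← mul_pow, hzz, one_pow, one_mul]
    rw [e1]
    have e4 : ∑ k ∈ range (n + 1), (((n + 1 : ℕ) : ℂ) - k) * g k * z ^ k =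
        ∑ k ∈ range (n + 1), ((n : ℂ) - k) * g k * z ^ k + ∑ k ∈ range (n + 1), g k * z ^ k := by
      rw [← Finset.sum_add_distrib]
      refine Finset.sum_congr rfl fun k _ => ?_
      push_cast; ring
    rw [e4, Finset.sum_range_succ (fun k => ((n : ℂ) - k) * g k * z ^ k)]
    simp

lemma form_geom (hn : 0 < P.natDegree) (z : ℂ) (hz : ‖z‖ = 1) :
    form P (fun j => conj z ^ j) = (P.natDegree : ℂ) * ctr P z := by
  have hnc : (P.natDegree : ℂ) ≠ 0 := by exact_mod_cast hn.ne'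
  unfold form
  simp only [map_pow, Complex.conj_conj]
  rw [geom_form z hz]
  have e : (P.natDegree : ℂ) * ctr P z = (P.natDegree : ℂ) * P.eval z - z * (derivative P).eval z := by
    unfold ctr; field_simp
  rw [e, eval_deriv, eval_sum, Finset.mul_sum, ← Finset.sum_sub_distrib, Finset.sum_range_succ]
  have e2 : (P.natDegree : ℂ) * (P.coeff P.natDegree * z ^ P.natDegree) -
      (P.natDegree : ℂ) * P.coeff P.natDegree * z ^ P.natDegree = 0 := by ring
  rw [e2, add_zero]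
  refine Finset.sum_congr rfl fun k _ => ?_
  ring

/-- exact criterion for the values of `P` in the disc -/
theorem criterion (hn : 0 < P.natDegree) (hε : ‖ε‖ = 1)
    (hsym : ∀ j, j ≤ P.natDegree → P.coeff (P.natDegree - j) = ε * conj (P.coeff j))
    {w : ℂ} (hw0 : w ≠ 0) :
    w ∈ Img P ↔ ∃ x : ℕ → ℂ, ‖w‖ ^ 2 * ∑ j ∈ range P.natDegree, ‖x j‖ ^ 2 <
      2 * (conj w * form P x).re := by
  constructor
  · intro hw
    have h1 : w ∈ Img P \ {0} := ⟨hw, hw0⟩
    rw [union_eq hn hε hsym] at h1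
    simp only [Set.mem_iUnion] at h1
    obtain ⟨z, hz, hw⟩ := h1
    have hz' : ‖z‖ = 1 := by simpa using hz
    rw [norm_ctr hn hε hsym hz', mem_ball_iff] at hw
    refine ⟨fun j => conj z ^ j, ?_⟩
    rw [form_geom hn z hz']
    have e1 : ∑ j ∈ range P.natDegree, ‖conj z ^ j‖ ^ 2 = P.natDegree := by
      simp [norm_pow, hz']
    rw [e1]
    have hn' : (0 : ℝ) < P.natDegree := by exact_mod_cast hn
    have e2 : (conj w * ((P.natDegree : ℂ) * ctr P z)).re =
        P.natDegree * (w * conj (ctr P z)).re := by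
      simp only [Complex.mul_re, Complex.mul_im, Complex.conj_re, Complex.conj_im,
        Complex.natCast_re, Complex.natCast_im]
      ring
    rw [e2]
    nlinarith
  · rintro ⟨x, hx⟩
    by_contra hcon
    have h := sc hε hsym hcon (∑ i ∈ range P.natDegree, C (x i) * X ^ i)
    have e1 : ∑ j ∈ range P.natDegree, ‖(∑ i ∈ range P.natDegree, C (x i) * X ^ i : ℂ[X]).coeff j‖ ^ 2 =
        ∑ j ∈ range P.natDegree, ‖x j‖ ^ 2 := by
      refine Finset.sum_congr rfl fun j hj => ?_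
      rw [coeff_poly x _ j (Finset.mem_range.1 hj)]
    have e2 : ∑ j ∈ range P.natDegree, (P * ∑ i ∈ range P.natDegree, C (x i) * X ^ i).coeff j *
        conj ((∑ i ∈ range P.natDegree, C (x i) * X ^ i : ℂ[X]).coeff j) = form P x := by
      unfold form
      refine Finset.sum_congr rfl fun j hj => ?_
      rw [coeff_poly x _ j (Finset.mem_range.1 hj), coeff_mul_poly x _ j (Finset.mem_range.1 hj)]
    rw [e1, e2] at h
    linarith

/-- the disc of radius the `ℓ²` norm of the inner coefficients -/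
theorem l2disc (hn : 0 < P.natDegree) (hε : ‖ε‖ = 1)
    (hsym : ∀ j, j ≤ P.natDegree → P.coeff (P.natDegree - j) = ε * conj (P.coeff j)) :
    ∃ w₀ : ℂ, Metric.ball w₀ (Real.sqrt (∑ k ∈ Ico 1 P.natDegree, ‖P.coeff k‖ ^ 2)) ⊆
      insert 0 (Img P) := by
  obtain ⟨S, hS⟩ : ∃ S : ℝ, S = ∑ k ∈ Ico 1 P.natDegree, ‖P.coeff k‖ ^ 2 := ⟨_, rfl⟩
  have hS0 : 0 ≤ S := by rw [hS]; exact Finset.sum_nonneg fun k _ => by positivity
  rw [← hS]
  obtain ⟨s, hs⟩ : ∃ s : ℝ, s = Real.sqrt S := ⟨_, rfl⟩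
  have hs0 : 0 ≤ s := by rw [hs]; exact Real.sqrt_nonneg _
  have hss : s ^ 2 = S := by rw [hs]; exact Real.sq_sqrt hS0
  rw [← hs]
  rcases hs0.eq_or_lt with h0 | hs1
  · refine ⟨0, ?_⟩
    rw [← h0, Metric.ball_zero]
    exact Set.empty_subset _
  obtain ⟨V, hV⟩ : ∃ V : ℂ[X], V = ∑ k ∈ Ico 1 P.natDegree, C (P.coeff k / (s : ℂ)) * X ^ k :=
    ⟨_, rfl⟩
  have hVc : ∀ j, V.coeff j = if j ∈ Ico 1 P.natDegree then P.coeff j / (s : ℂ) else 0 := by
    intro j
    rw [hV, finsetSum_coeff]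
    simp only [coeff_C_mul_X_pow]
    rw [Finset.sum_ite_eq]
  have hV0 : V.coeff 0 = 0 := by rw [hVc]; simp
  obtain ⟨f, hf⟩ : ∃ f : ℂ, f = ∑ j ∈ Ico 1 P.natDegree, (P * V).coeff j * conj (V.coeff j) :=
    ⟨_, rfl⟩
  have hsc : (s : ℂ) ≠ 0 := by exact_mod_cast hs1.ne'
  refine ⟨P.coeff 0 + f, ?_⟩
  intro w hw
  by_contra hcon
  rw [Set.mem_insert_iff, not_or] at hcon
  obtain ⟨hw0, hwI⟩ := hcon
  have hw1 : 0 < ‖w‖ := norm_pos_iff.2 hw0
  have hwc : ((‖w‖ : ℝ) : ℂ) ≠ 0 := by exact_mod_cast hw1.ne'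
  obtain ⟨y, hy⟩ : ∃ y : ℂ, y = conj w / ((‖w‖ : ℝ) : ℂ) := ⟨_, rfl⟩
  have hyy : y * conj y = 1 := by
    rw [hy, map_div₀, Complex.conj_conj, Complex.conj_ofReal, div_mul_div_comm, Complex.conj_mul',
      ← pow_two, div_self]
    exact pow_ne_zero _ hwc
  have hyn : ‖y‖ = 1 := by
    rw [hy, norm_div, RCLike.norm_conj, Complex.norm_real, norm_norm, div_self hw1.ne']
  have h := sc hε hsym hwI (1 + C y * V)
  have hh0 : (1 + C y * V).coeff 0 = 1 := by
    rw [coeff_add, coeff_C_mul, hV0]; simp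
  have hhj : ∀ j ∈ Ico 1 P.natDegree, (1 + C y * V).coeff j = y * V.coeff j := by
    intro j hj
    have := Finset.mem_Ico.1 hj
    rw [coeff_add, coeff_C_mul, coeff_one, if_neg (by omega), zero_add]
  have hph : ∀ j, (P * (1 + C y * V)).coeff j = P.coeff j + y * (P * V).coeff j := by
    intro j
    have : P * (1 + C y * V) = P + C y * (P * V) := by ring
    rw [this, coeff_add, coeff_C_mul]
  have e1 : ∑ j ∈ range P.natDegree, ‖(1 + C y * V).coeff j‖ ^ 2 = 2 := by
    rw [Finset.range_eq_Ico, Finset.sum_eq_sum_Ico_succ_bot hn, hh0]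
    have : ∑ j ∈ Ico (0 + 1) P.natDegree, ‖(1 + C y * V).coeff j‖ ^ 2 =
        ∑ j ∈ Ico 1 P.natDegree, ‖P.coeff j‖ ^ 2 / s ^ 2 := by
      refine Finset.sum_congr rfl fun j hj => ?_
      have hj' : j ∈ Ico 1 P.natDegree := hj
      rw [hhj j hj', hVc, if_pos hj', norm_mul, hyn, one_mul, norm_div, Complex.norm_real,
        Real.norm_eq_abs, abs_of_pos hs1, div_pow]
    rw [this, ← Finset.sum_div, ← hS, hss, norm_one, one_pow]
    rw [← hss, div_self (pow_ne_zero _ hs1.ne')]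
    norm_num
  have e2 : ∑ j ∈ range P.natDegree, (P * (1 + C y * V)).coeff j * conj ((1 + C y * V).coeff j) =
      P.coeff 0 + conj y * s + f := by
    rw [Finset.range_eq_Ico, Finset.sum_eq_sum_Ico_succ_bot hn, hh0, hph 0, map_one, mul_one]
    have h0 : (P * V).coeff 0 = 0 := by rw [mul_coeff_zero, hV0, mul_zero]
    rw [h0, mul_zero, add_zero]
    have : ∑ j ∈ Ico (0 + 1) P.natDegree,
        (P * (1 + C y * V)).coeff j * conj ((1 + C y * V).coeff j) =
        ∑ j ∈ Ico 1 P.natDegree, (conj y * ((‖P.coeff j‖ ^ 2 / s : ℝ) : ℂ) +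
          (P * V).coeff j * conj (V.coeff j)) := by
      refine Finset.sum_congr rfl fun j hj => ?_
      have hj' : j ∈ Ico 1 P.natDegree := hj
      rw [hhj j hj', hph]
      have e3 : P.coeff j * conj (V.coeff j) = ((‖P.coeff j‖ ^ 2 / s : ℝ) : ℂ) := by
        rw [hVc, if_pos hj', map_div₀, Complex.conj_ofReal, mul_div_assoc', Complex.mul_conj']
        push_cast
        rfl
      rw [← e3, map_mul]
      linear_combination ((P * V).coeff j * conj (V.coeff j)) * hyy
    rw [this, Finset.sum_add_distrib, ← hf, ← Finset.mul_sum, ← Complex.ofReal_sum,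
      ← Finset.sum_div, ← hS, ← hss]
    have e4 : s ^ 2 / s = s := by field_simp
    rw [e4, add_assoc]
  rw [e1, e2] at h
  -- the real computation
  have e5 : conj w * (P.coeff 0 + conj y * s + f) =
      conj w * (P.coeff 0 + f) + ((‖w‖ * s : ℝ) : ℂ) := by
    have e6 : conj w * conj y = ((‖w‖ : ℝ) : ℂ) := by
      rw [hy, map_div₀, Complex.conj_conj, Complex.conj_ofReal, mul_div_assoc', Complex.conj_mul',
        pow_two, mul_div_assoc, div_self hwc, mul_one]
    push_cast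
    linear_combination (s : ℂ) * e6
  rw [e5, Complex.add_re, Complex.ofReal_re] at h
  have h7 : (conj w * (w - (P.coeff 0 + f))).re ≤ ‖w‖ * ‖w - (P.coeff 0 + f)‖ := by
    refine (Complex.re_le_norm _).trans ?_
    rw [norm_mul, RCLike.norm_conj]
  have h8 : (conj w * (w - (P.coeff 0 + f))).re = ‖w‖ ^ 2 - (conj w * (P.coeff 0 + f)).re := by
    rw [mul_sub, Complex.sub_re, Complex.conj_mul', ← Complex.ofReal_pow, Complex.ofReal_re]
  rw [h8] at h7
  have h9 : ‖w - (P.coeff 0 + f)‖ < s := by rwa [Metric.mem_ball, dist_eq_norm] at hw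
  nlinarith

end Pool.Agent.Y924.SI
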