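import Pool.Agent.Helper140.SelfInv

set_option autoImplicit false

/-!
# The image of the unit disc under a polynomial whose zeros are symmetric in the unit circle
-/

namespace Pool.Agent.Y924.SI

open Polynomial Finset
open scoped ComplexConjugate
open Pool.Agent.Helper140.SelfInv.A

lemma normSq_sub (a b : ℂ) : ‖a - b‖ ^ 2 = ‖a‖ ^ 2 - 2 * (a * conj b).re + ‖b‖ ^ 2 := by
  simp only [nsq, Complex.mul_re, Complex.sub_re, Complex.sub_im, Complex.conj_re, Complex.conj_im]
  ring

/-- the values of `P` in the open unit disc -/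
def Img (P : ℂ[X]) : Set ℂ := (fun z => P.eval z) '' Metric.ball (0 : ℂ) 1

lemma roots_out (P : ℂ[X]) {w : ℂ} (hw : w ∉ Img P) : ∀ ζ ∈ (P - C w).roots, 1 ≤ ‖ζ‖ := by
  apply roots_of_no_zero
  intro z hz h
  apply hw
  refine ⟨z, by simpa using hz, ?_⟩
  simp only [eval_sub, eval_C] at h
  exact sub_eq_zero.1 h

/-- for every polynomial of positive degree: a disc in the image for every point of the circle -/
lemma lag_disc (P : ℂ[X]) (hn : 0 < P.natDegree) (z : ℂ) (hz : ‖z‖ = 1) :
    Metric.ball (P.eval z - z * (derivative P).eval z / (P.natDegree : ℂ))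
      (‖(derivative P).eval z‖ / P.natDegree) ⊆ Img P := by
  intro w hw
  by_contra hcon
  have hn' : (0 : ℝ) < P.natDegree := by exact_mod_cast hn
  have h1 := lag (P - C w) z (fun ζ hζ => by rw [hz]; exact roots_out P hcon ζ hζ)
  rw [natDegree_sub_C'] at h1
  simp only [derivative_sub, derivative_C, sub_zero, eval_sub, eval_C] at h1
  rw [Metric.mem_ball, dist_eq_norm] at hw
  set q := eval z P with hq
  set e := z * eval z (derivative P) with he
  have he1 : ‖eval z (derivative P)‖ = ‖e‖ := by rw [he, norm_mul, hz, one_mul]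
  rw [he1] at hw
  clear_value q e
  have h2 : ‖e‖ ^ 2 ≤ ‖(P.natDegree : ℂ) * (q - w) - e‖ ^ 2 := by
    rw [normSq_sub, norm_mul, Complex.norm_natCast, mul_pow]
    have e1 : ((P.natDegree : ℂ) * (q - w) * conj e).re = P.natDegree * (e * conj (q - w)).re := by
      simp only [Complex.mul_re, Complex.mul_im, Complex.sub_re, Complex.sub_im, Complex.conj_re,
        Complex.conj_im, Complex.natCast_re, Complex.natCast_im]
      ring
    rw [e1]
    nlinarith
  have h3 : ‖e‖ ≤ ‖(P.natDegree : ℂ) * (q - w) - e‖ :=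
    (pow_le_pow_iff_left₀ (norm_nonneg _) (norm_nonneg _) two_ne_zero).1 h2
  have hnc : (P.natDegree : ℂ) ≠ 0 := by exact_mod_cast hn.ne'
  have h4 : (P.natDegree : ℂ) * (q - w) - e = -(P.natDegree * (w - (q - e / (P.natDegree : ℂ)))) := by
    field_simp
    ring
  rw [h4, norm_neg, norm_mul, Complex.norm_natCast] at h3
  rw [lt_div_iff₀ hn'] at hw
  linarith

section circle

variable {P : ℂ[X]} {ε : ℂ}

lemma eval_sum (P : ℂ[X]) (z : ℂ) :
    P.eval z = ∑ k ∈ range (P.natDegree + 1), P.coeff k * z ^ k := eval_eq_sum_range z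

lemma eval_deriv (P : ℂ[X]) (z : ℂ) :
    z * (derivative P).eval z = ∑ k ∈ range (P.natDegree + 1), (k : ℂ) * P.coeff k * z ^ k := by
  rw [derivative_eval, sum_over_range, Finset.mul_sum]
  · refine Finset.sum_congr rfl fun k _ => ?_
    rcases Nat.eq_zero_or_pos k with rfl | hk
    · simp
    · obtain ⟨m, rfl⟩ : ∃ m, k = m + 1 := ⟨k - 1, by omega⟩
      rw [Nat.add_sub_cancel, pow_succ]
      ring
  · intro n; simp

/-- reflection of sums for coefficients with `a (n - j) = ε * conj (a j)` -/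
lemma refl_conj (hsym : ∀ j, j ≤ P.natDegree → P.coeff (P.natDegree - j) = ε * conj (P.coeff j))
    {z : ℂ} (hz : ‖z‖ = 1) (c : ℕ → ℝ) :
    ∑ k ∈ range (P.natDegree + 1), (c (P.natDegree - k) : ℂ) * P.coeff k * z ^ k =
      ε * z ^ P.natDegree *
        conj (∑ k ∈ range (P.natDegree + 1), (c k : ℂ) * P.coeff k * z ^ k) := by
  have hzz : z * conj z = 1 := by rw [Complex.mul_conj', hz]; simp
  rw [← Finset.sum_range_reflect, map_sum, Finset.mul_sum]
  refine Finset.sum_congr rfl fun k hk => ?_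
  have hk' : k ≤ P.natDegree := by have := Finset.mem_range.1 hk; omega
  have e1 : P.natDegree + 1 - 1 - k = P.natDegree - k := by omega
  have e2 : P.natDegree - (P.natDegree - k) = k := by omega
  rw [e1, e2, hsym k hk', map_mul, map_mul, map_pow, Complex.conj_ofReal]
  have e3 : z ^ P.natDegree * conj z ^ k = z ^ (P.natDegree - k) := by
    have : z ^ P.natDegree = z ^ (P.natDegree - k) * z ^ k := by
      rw [← pow_add]; congr 1; omega
    rw [this, mul_assoc, ← mul_pow, hzz, one_pow, mul_one]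
  rw [← e3]
  ring

lemma refl_P (hsym : ∀ j, j ≤ P.natDegree → P.coeff (P.natDegree - j) = ε * conj (P.coeff j))
    {z : ℂ} (hz : ‖z‖ = 1) : P.eval z = ε * z ^ P.natDegree * conj (P.eval z) := by
  have h := refl_conj hsym hz (fun _ => 1)
  simpa [← eval_sum] using h

lemma refl_dP (hsym : ∀ j, j ≤ P.natDegree → P.coeff (P.natDegree - j) = ε * conj (P.coeff j))
    {z : ℂ} (hz : ‖z‖ = 1) :
    (P.natDegree : ℂ) * P.eval z - z * (derivative P).eval z =
      ε * z ^ P.natDegree * conj (z * (derivative P).eval z) := by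
  have h := refl_conj hsym hz (fun k => (k : ℝ))
  rw [eval_deriv]
  simp only [Complex.ofReal_natCast] at h
  rw [← h, eval_sum, Finset.mul_sum, ← Finset.sum_sub_distrib]
  refine Finset.sum_congr rfl fun k hk => ?_
  have hk' : k ≤ P.natDegree := by have := Finset.mem_range.1 hk; omega
  rw [Nat.cast_sub hk']
  ring

/-- reflection for `a (n - j) = ε * a j` -/
lemma refl_inv (hsym : ∀ j, j ≤ P.natDegree → P.coeff (P.natDegree - j) = ε * P.coeff j)
    {z : ℂ} (hz : z ≠ 0) (c : ℕ → ℂ) :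
    ∑ k ∈ range (P.natDegree + 1), c (P.natDegree - k) * P.coeff k * z ^ k =
      ε * z ^ P.natDegree *
        (∑ k ∈ range (P.natDegree + 1), c k * P.coeff k * z⁻¹ ^ k) := by
  rw [← Finset.sum_range_reflect, Finset.mul_sum]
  refine Finset.sum_congr rfl fun k hk => ?_
  have hk' : k ≤ P.natDegree := by have := Finset.mem_range.1 hk; omega
  have e1 : P.natDegree + 1 - 1 - k = P.natDegree - k := by omega
  have e2 : P.natDegree - (P.natDegree - k) = k := by omega
  rw [e1, e2, hsym k hk']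
  have e3 : z ^ P.natDegree * z⁻¹ ^ k = z ^ (P.natDegree - k) := by
    have : z ^ P.natDegree = z ^ (P.natDegree - k) * z ^ k := by
      rw [← pow_add]; congr 1; omega
    rw [this, mul_assoc, ← mul_pow, mul_inv_cancel₀ hz, one_pow, mul_one]
  rw [← e3]
  ring

lemma refl_dP_inv (hsym : ∀ j, j ≤ P.natDegree → P.coeff (P.natDegree - j) = ε * P.coeff j)
    {z : ℂ} (hz : z ≠ 0) :
    (P.natDegree : ℂ) * P.eval z - z * (derivative P).eval z =
      ε * z ^ P.natDegree * (z⁻¹ * (derivative P).eval z⁻¹) := by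
  have h := refl_inv hsym hz (fun k => (k : ℂ))
  rw [eval_deriv, eval_deriv]
  rw [← h, eval_sum, Finset.mul_sum, ← Finset.sum_sub_distrib]
  refine Finset.sum_congr rfl fun k hk => ?_
  have hk' : k ≤ P.natDegree := by have := Finset.mem_range.1 hk; omega
  rw [Nat.cast_sub hk']
  ring

end circle

section half

variable {P : ℂ[X]} {ε : ℂ}

lemma norm_one_of {ε : ℂ} (hε : conj ε * ε = 1) : ‖ε‖ = 1 := by
  have : ‖conj ε * ε‖ = 1 := by rw [hε]; simp
  rw [norm_mul, RCLike.norm_conj] at this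
  nlinarith [norm_nonneg ε]

lemma half_conj (hn : 0 < P.natDegree) (hε : ‖ε‖ = 1)
    (hsym : ∀ j, j ≤ P.natDegree → P.coeff (P.natDegree - j) = ε * conj (P.coeff j))
    {z : ℂ} (hz : ‖z‖ = 1) : ‖P.eval z‖ / 2 ≤ ‖(derivative P).eval z‖ / P.natDegree := by
  have hn' : (0 : ℝ) < P.natDegree := by exact_mod_cast hn
  have h := refl_dP hsym hz
  have h1 : ‖(P.natDegree : ℂ) * P.eval z‖ ≤ 2 * ‖(derivative P).eval z‖ := by
    have e : (P.natDegree : ℂ) * P.eval z =
        ((P.natDegree : ℂ) * P.eval z - z * (derivative P).eval z) + z * (derivative P).eval z := by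
      ring
    rw [e, h]
    refine (norm_add_le _ _).trans ?_
    rw [norm_mul, norm_mul, norm_pow, hε, hz, RCLike.norm_conj, norm_mul, hz, one_pow]
    linarith
  rw [norm_mul, Complex.norm_natCast] at h1
  rw [div_le_div_iff₀ two_pos hn']
  linarith

lemma half_inv (hn : 0 < P.natDegree) (hε : ‖ε‖ = 1)
    (hsym : ∀ j, j ≤ P.natDegree → P.coeff (P.natDegree - j) = ε * P.coeff j)
    {z : ℂ} (hz : ‖z‖ = 1) :
    ∃ y : ℂ, ‖y‖ = 1 ∧ ‖P.eval z‖ / 2 ≤ ‖(derivative P).eval y‖ / P.natDegree := by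
  have hn' : (0 : ℝ) < P.natDegree := by exact_mod_cast hn
  have hz0 : z ≠ 0 := by rintro rfl; simp at hz
  have h := refl_dP_inv hsym hz0
  have h1 : ‖(P.natDegree : ℂ) * P.eval z‖ ≤
      ‖(derivative P).eval z⁻¹‖ + ‖(derivative P).eval z‖ := by
    have e : (P.natDegree : ℂ) * P.eval z =
        ((P.natDegree : ℂ) * P.eval z - z * (derivative P).eval z) + z * (derivative P).eval z := by
      ring
    rw [e, h]
    refine (norm_add_le _ _).trans ?_
    rw [norm_mul, norm_mul, norm_pow, hε, hz, norm_mul, norm_inv, hz, norm_mul, hz, one_pow,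
      inv_one]
    linarith
  rw [norm_mul, Complex.norm_natCast] at h1
  rcases le_total ‖(derivative P).eval z⁻¹‖ ‖(derivative P).eval z‖ with hle | hle
  · refine ⟨z, hz, ?_⟩
    rw [div_le_div_iff₀ two_pos hn']
    linarith
  · refine ⟨z⁻¹, by rw [norm_inv, hz, inv_one], ?_⟩
    rw [div_le_div_iff₀ two_pos hn']
    linarith

end half

section union

variable {P : ℂ[X]} {ε : ℂ}

/-- the centre of the disc that belongs to a point of the circle -/
noncomputable def ctr (P : ℂ[X]) (z : ℂ) : ℂ :=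
  P.eval z - z * (derivative P).eval z / (P.natDegree : ℂ)

lemma norm_ctr (hn : 0 < P.natDegree) (hε : ‖ε‖ = 1)
    (hsym : ∀ j, j ≤ P.natDegree → P.coeff (P.natDegree - j) = ε * conj (P.coeff j))
    {z : ℂ} (hz : ‖z‖ = 1) : ‖(derivative P).eval z‖ / P.natDegree = ‖ctr P z‖ := by
  have hnc : (P.natDegree : ℂ) ≠ 0 := by exact_mod_cast hn.ne'
  have h := refl_dP hsym hz
  have e : ctr P z = ((P.natDegree : ℂ) * P.eval z - z * (derivative P).eval z) /
      (P.natDegree : ℂ) := by
    unfold ctr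
    field_simp
  rw [e, h, norm_div, norm_mul, norm_mul, norm_pow, hε, hz, RCLike.norm_conj, norm_mul, hz,
    Complex.norm_natCast]
  simp

lemma re_ctr (hn : 0 < P.natDegree)
    (hsym : ∀ j, j ≤ P.natDegree → P.coeff (P.natDegree - j) = ε * conj (P.coeff j))
    {z : ℂ} (hz : ‖z‖ = 1) : 2 * (P.eval z * conj (ctr P z)).re = ‖P.eval z‖ ^ 2 := by
  have hnc : (P.natDegree : ℂ) ≠ 0 := by exact_mod_cast hn.ne'
  have h1 := refl_P hsym hz
  have h2 := refl_dP hsym hz
  have h3 : conj (P.eval z) * ctr P z + P.eval z * conj (ctr P z) = P.eval z * conj (P.eval z) := by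
    have e : (P.natDegree : ℂ) * ctr P z =
        ε * z ^ P.natDegree * conj (z * (derivative P).eval z) := by
      rw [← h2]
      unfold ctr
      field_simp
    have e2 : (P.natDegree : ℂ) * (conj (P.eval z) * ctr P z) =
        P.eval z * conj (z * (derivative P).eval z) := by
      calc (P.natDegree : ℂ) * (conj (P.eval z) * ctr P z)
          = conj (P.eval z) * ((P.natDegree : ℂ) * ctr P z) := by ring
        _ = (ε * z ^ P.natDegree * conj (P.eval z)) * conj (z * (derivative P).eval z) := by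
            rw [e]; ring
        _ = _ := by rw [← h1]
    have e3 : (P.natDegree : ℂ) * conj (ctr P z) =
        (P.natDegree : ℂ) * conj (P.eval z) - conj (z * (derivative P).eval z) := by
      unfold ctr
      rw [map_sub, map_div₀, map_natCast]
      field_simp
    apply mul_left_cancel₀ hnc
    linear_combination e2 + P.eval z * e3
  have h4 := congrArg Complex.re h3
  rw [Complex.add_re, Complex.mul_conj'] at h4
  have e5 : (conj (P.eval z) * ctr P z).re = (P.eval z * conj (ctr P z)).re := by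
    simp only [Complex.mul_re, Complex.conj_re, Complex.conj_im]
    ring
  rw [e5] at h4
  have e6 : (((‖P.eval z‖ : ℝ) : ℂ) ^ 2).re = ‖P.eval z‖ ^ 2 := by
    rw [← Complex.ofReal_pow, Complex.ofReal_re]
  rw [e6] at h4
  linarith

lemma mem_ball_iff (c w : ℂ) :
    w ∈ Metric.ball c ‖c‖ ↔ ‖w‖ ^ 2 < 2 * (w * conj c).re := by
  rw [Metric.mem_ball, dist_eq_norm, ← pow_lt_pow_iff_left₀ (norm_nonneg _) (norm_nonneg _)
    two_ne_zero, normSq_sub]
  constructor <;> intro h <;> linarith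

lemma isOpen_Img (hn : 0 < P.natDegree) : IsOpen (Img P) := by
  have h := AnalyticOnNhd.is_constant_or_isOpen (g := fun z => P.eval z) (U := Set.univ)
    (fun z _ => (P.differentiable.analyticAt z)) isPreconnected_univ
  rcases h with ⟨w, hw⟩ | h
  · exfalso
    have : P = C w := by
      apply Polynomial.funext
      intro z
      rw [eval_C]
      exact hw z (Set.mem_univ _)
    rw [this] at hn
    simp at hn
  · exact h _ (Set.subset_univ _) Metric.isOpen_ball

lemma exists_boundary (hn : 0 < P.natDegree) {w : ℂ} (hw : w ∈ Img P) (hw0 : w ≠ 0) :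
    ∃ t : ℝ, 1 < t ∧ ∃ z : ℂ, ‖z‖ = 1 ∧ P.eval z = t * w := by
  have hop := isOpen_Img hn
  have hK : IsCompact ((fun z => P.eval z) '' Metric.closedBall (0 : ℂ) 1) :=
    (isCompact_closedBall _ _).image P.continuous
  have hsub : Img P ⊆ (fun z => P.eval z) '' Metric.closedBall (0 : ℂ) 1 :=
    Set.image_mono Metric.ball_subset_closedBall
  have hc : Continuous (fun t : ℝ => (t : ℂ) * w) := by fun_prop
  -- openness
  have hup : ∀ t : ℝ, (t : ℂ) * w ∈ Img P → ∃ t' : ℝ, t < t' ∧ (t' : ℂ) * w ∈ Img P := by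
    intro t ht
    have h1 : (fun t : ℝ => (t : ℂ) * w) ⁻¹' (Img P) ∈ nhds t :=
      (hop.preimage hc).mem_nhds ht
    obtain ⟨δ, hδ, h2⟩ := Metric.mem_nhds_iff.1 h1
    refine ⟨t + δ / 2, by linarith, ?_⟩
    apply h2
    rw [Metric.mem_ball, Real.dist_eq]
    rw [abs_lt]; constructor <;> linarith
  obtain ⟨B, hB⟩ := hK.isBounded.exists_norm_le
  set K : Set ℝ := Set.Ici 1 ∩
    (fun t : ℝ => (t : ℂ) * w) ⁻¹' ((fun z => P.eval z) '' Metric.closedBall (0 : ℂ) 1) with hKdef
  have hKc : IsClosed K := isClosed_Ici.inter (hK.isClosed.preimage hc)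
  have hw0' : 0 < ‖w‖ := norm_pos_iff.2 hw0
  have hKb : ∀ t ∈ K, t ≤ B / ‖w‖ := by
    intro t ht
    have h1 := hB _ ht.2
    rw [norm_mul, Complex.norm_real, Real.norm_eq_abs] at h1
    rw [le_div_iff₀ hw0']
    exact le_trans (mul_le_mul_of_nonneg_right (le_abs_self _) hw0'.le) h1
  have hKne : (1 : ℝ) ∈ K := by
    refine ⟨Set.mem_Ici.2 le_rfl, ?_⟩
    rw [Set.mem_preimage, Complex.ofReal_one, one_mul]
    exact hsub hw
  have hKcomp : IsCompact K := by
    apply Metric.isCompact_of_isClosed_isBounded hKc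
    apply (Metric.isBounded_Icc (1 : ℝ) (B / ‖w‖)).subset
    intro t ht
    exact ⟨ht.1, hKb t ht⟩
  obtain ⟨t, ht, hmax⟩ := hKcomp.exists_isMaxOn ⟨1, hKne⟩ continuousOn_id
  have hmax' : ∀ s ∈ K, s ≤ t := fun s hs => hmax hs
  obtain ⟨z, hz, hzw⟩ := ht.2
  have hz' : ‖z‖ ≤ 1 := by simpa using hz
  have hzw' : P.eval z = (t : ℂ) * w := hzw
  refine ⟨t, ?_, z, ?_, hzw'⟩
  · obtain ⟨t', ht', h2⟩ := hup 1 (by rw [Complex.ofReal_one, one_mul]; exact hw)
    exact lt_of_lt_of_le ht' (hmax' t' ⟨ht'.le, hsub h2⟩)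
  · by_contra hne
    have hlt : ‖z‖ < 1 := lt_of_le_of_ne hz' hne
    obtain ⟨t', ht', h2⟩ := hup t ⟨z, by simpa using hlt, hzw'⟩
    exact absurd (hmax' t' ⟨(ht.1 : (1:ℝ) ≤ t).trans ht'.le, hsub h2⟩) (not_le.2 ht')

theorem union_eq (hn : 0 < P.natDegree) (hε : ‖ε‖ = 1)
    (hsym : ∀ j, j ≤ P.natDegree → P.coeff (P.natDegree - j) = ε * conj (P.coeff j)) :
    Img P \ {0} = ⋃ z ∈ Metric.sphere (0 : ℂ) 1,
      Metric.ball (ctr P z) (‖(derivative P).eval z‖ / P.natDegree) := by
  apply Set.Subset.antisymm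
  · rintro w ⟨hw, hw0⟩
    obtain ⟨t, ht, z, hz, hzw⟩ := exists_boundary hn hw hw0
    simp only [Set.mem_iUnion]
    refine ⟨z, by simpa using hz, ?_⟩
    rw [norm_ctr hn hε hsym hz, mem_ball_iff]
    have h := re_ctr hn hsym hz
    rw [hzw, norm_mul, Complex.norm_real, Real.norm_eq_abs, abs_of_pos (by linarith), mul_assoc,
      Complex.re_ofReal_mul] at h
    have hw0' : 0 < ‖w‖ := norm_pos_iff.2 hw0
    have h2 : 2 * (w * conj (ctr P z)).re = t * ‖w‖ ^ 2 := by
      have ht0 : (t : ℝ) ≠ 0 := by linarith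
      apply mul_left_cancel₀ ht0
      linear_combination h
    rw [h2]
    have : 0 < ‖w‖ ^ 2 := by positivity
    nlinarith
  · intro w hw
    simp only [Set.mem_iUnion] at hw
    obtain ⟨z, hz, hw⟩ := hw
    have hz' : ‖z‖ = 1 := by simpa using hz
    refine ⟨lag_disc P hn z hz' hw, ?_⟩
    rintro rfl
    rw [norm_ctr hn hε hsym hz', mem_ball_iff] at hw
    simp at hw

theorem star_shaped (hn : 0 < P.natDegree) (hε : ‖ε‖ = 1)
    (hsym : ∀ j, j ≤ P.natDegree → P.coeff (P.natDegree - j) = ε * conj (P.coeff j))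
    {w : ℂ} (hw : w ∈ Img P) {t : ℝ} (ht0 : 0 < t) (ht1 : t ≤ 1) : (t : ℂ) * w ∈ Img P := by
  by_cases hw0 : w = 0
  · rw [hw0, mul_zero, ← hw0]; exact hw
  have h1 : w ∈ Img P \ {0} := ⟨hw, hw0⟩
  rw [union_eq hn hε hsym] at h1
  simp only [Set.mem_iUnion] at h1
  obtain ⟨z, hz, hw⟩ := h1
  have hz' : ‖z‖ = 1 := by simpa using hz
  apply lag_disc P hn z hz'
  have h2 : (t : ℂ) * w ∈ Metric.ball (ctr P z) (‖(derivative P).eval z‖ / P.natDegree) := by
    rw [norm_ctr hn hε hsym hz', mem_ball_iff] at hw ⊢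
    rw [norm_mul, Complex.norm_real, Real.norm_eq_abs, abs_of_pos ht0, mul_assoc,
      Complex.re_ofReal_mul, mul_pow]
    have : 0 < ‖w‖ ^ 2 := by positivity
    nlinarith [mul_pos ht0 this]
  exact h2

end union

section schur

variable {P : ℂ[X]} {ε : ℂ}

/-- the Hermitian form of the problem -/
theorem sc (hε : ‖ε‖ = 1)
    (hsym : ∀ j, j ≤ P.natDegree → P.coeff (P.natDegree - j) = ε * conj (P.coeff j))
    {w : ℂ} (hw : w ∉ Img P) (h : ℂ[X]) :
    2 * (conj w * ∑ j ∈ range P.natDegree, (P * h).coeff j * conj (h.coeff j)).re ≤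
      ‖w‖ ^ 2 * ∑ j ∈ range P.natDegree, ‖h.coeff j‖ ^ 2 := by
  have h1 := schur_cohn (P - C w) (roots_out P hw) P.natDegree h
  have e1 : NN P.natDegree (star (P - C w) * h) = ∑ j ∈ range P.natDegree, ‖(P * h).coeff j‖ ^ 2 := by
    unfold NN
    refine Finset.sum_congr rfl fun j hj => ?_
    have hj' := Finset.mem_range.1 hj
    have e2 : (star (P - C w) * h).coeff j = conj ε * (P * h).coeff j := by
      rw [coeff_mul, coeff_mul, Finset.mul_sum]
      refine Finset.sum_congr rfl fun x hx => ?_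
      have hx' : x.1 + x.2 = j := by simpa using hx
      rw [star_coeff _ _ (by rw [natDegree_sub_C']; omega), natDegree_sub_C',
        coeff_sub_C_pos _ _ _ (by omega), hsym _ (by omega), map_mul, Complex.conj_conj]
      ring
    rw [e2, norm_mul, RCLike.norm_conj, hε, one_mul]
  have e3 : NN P.natDegree ((P - C w) * h) = ∑ j ∈ range P.natDegree, (‖(P * h).coeff j‖ ^ 2 -
      2 * (conj w * ((P * h).coeff j * conj (h.coeff j))).re + ‖w‖ ^ 2 * ‖h.coeff j‖ ^ 2) := by
    unfold NN
    refine Finset.sum_congr rfl fun j hj => ?_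
    rw [sub_mul, coeff_sub, coeff_C_mul, normSq_sub, norm_mul, mul_pow, map_mul]
    congr 3
    congr 1
    ring
  rw [e1, e3, Finset.sum_add_distrib, Finset.sum_sub_distrib, ← Finset.mul_sum, ← Finset.mul_sum,
    ← Complex.re_sum, ← Finset.mul_sum] at h1
  linarith

end schur

end Pool.Agent.Y924.SI
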